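import Mathlib

set_option autoImplicit false

open Filter Topology Metric
open scoped NNReal

namespace Pool.Agent.Results.MP_e93574_an.FixedPoint

/-- The set `Γ`: continuous, nondecreasing, subadditive maps `γ : [0,∞) → [0,∞)` with
`γ⁻¹({0}) = {0}`. -/
def InGamma (γ : ℝ≥0 → ℝ≥0) : Prop :=
  Continuous γ ∧ Monotone γ ∧ (∀ s t, γ (s + t) ≤ γ s + γ t) ∧ γ ⁻¹' {0} = {0}

/-- The class `𝒜`. -/
def InA (θ : ℝ≥0 → ℝ≥0) : Prop :=
  ∃ ε₀ : ℝ≥0, 0 < ε₀ ∧ ∃ γ : ℝ≥0 → ℝ≥0, InGamma γ ∧ ∀ t, θ t ≤ ε₀ → γ t ≤ θ t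

/-- `T : X → 𝒞ℬ(X)`: the values are nonempty, closed and bounded. -/
def IsCB {X : Type*} [MetricSpace X] (T : X → Set X) : Prop :=
  ∀ x, (T x).Nonempty ∧ IsClosed (T x) ∧ Bornology.IsBounded (T x)

/-- `T` is weakly contractive with respect to `θ`. -/
def WeaklyContractive {X : Type*} [MetricSpace X] (θ : ℝ≥0 → ℝ≥0) (T : X → Set X) : Prop :=
  ∀ x y, hausdorffDist (T x) (T y) ≤ dist x y - θ (nndist x y)

theorem gamma_nsmul {γ : ℝ≥0 → ℝ≥0} (h : InGamma γ) (t : ℝ≥0) (n : ℕ) :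
    γ ((n + 1) * t) ≤ (n + 1) * γ t := by
  induction n with
  | zero => simp
  | succ n ih =>
    calc γ (((n + 1 : ℕ) + 1) * t) = γ ((n + 1) * t + t) := by push_cast; ring_nf
      _ ≤ γ ((n + 1) * t) + γ t := h.2.2.1 _ _
      _ ≤ (n + 1) * γ t + γ t := by gcongr
      _ = _ := by push_cast; ring

/-- Every `θ` in the class is bounded below by a multiple of `min t 1`. -/
theorem lower {θ : ℝ≥0 → ℝ≥0} (h : InA θ) :
    ∃ c : ℝ≥0, 0 < c ∧ c ≤ 1 ∧ ∀ t, c * min t 1 ≤ θ t := by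
  obtain ⟨ε₀, hε, γ, hγ, hθ⟩ := h
  have h1 : 0 < γ 1 := by
    rw [pos_iff_ne_zero]
    intro h0
    have : (1 : ℝ≥0) ∈ γ ⁻¹' {0} := h0
    rw [hγ.2.2.2] at this
    exact one_ne_zero this
  refine ⟨min (min ε₀ (γ 1 / 2)) 1, by positivity, min_le_right _ _, fun t => ?_⟩
  have hc1 : min (min ε₀ (γ 1 / 2)) 1 ≤ ε₀ := (min_le_left _ _).trans (min_le_left _ _)
  have hc2 : min (min ε₀ (γ 1 / 2)) 1 ≤ γ 1 / 2 := (min_le_left _ _).trans (min_le_right _ _)
  have hm : min t 1 ≤ 1 := min_le_right _ _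
  rcases le_or_gt (θ t) ε₀ with hle | hgt
  · refine le_trans ?_ (hθ t hle)
    rcases le_or_gt 1 t with ht | ht
    · calc min (min ε₀ (γ 1 / 2)) 1 * min t 1 ≤ (γ 1 / 2) * 1 := by gcongr
        _ ≤ γ 1 := by rw [mul_one]; exact half_le_self zero_le
        _ ≤ γ t := hγ.2.1 ht
    · rcases eq_or_ne t 0 with rfl | ht0
      · simp
      have htpos : 0 < t := pos_iff_ne_zero.2 ht0
      -- n + 1 ≥ 1 / t
      set n := ⌊t⁻¹⌋₊ with hn
      have h2 : 1 ≤ (n + 1) * t := by
        have h3 : t⁻¹ < n + 1 := Nat.lt_floor_add_one _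
        calc (1 : ℝ≥0) = t⁻¹ * t := (inv_mul_cancel₀ ht0).symm
          _ ≤ (n + 1) * t := by gcongr
      have h4 : γ 1 ≤ (n + 1) * γ t := (hγ.2.1 h2).trans (gamma_nsmul hγ t n)
      have h5 : ((n : ℝ≥0) + 1) * t ≤ 2 := by
        have h6 : (n : ℝ≥0) ≤ t⁻¹ := Nat.floor_le zero_le
        calc ((n : ℝ≥0) + 1) * t = n * t + t := by ring
          _ ≤ t⁻¹ * t + 1 := by gcongr
          _ = 2 := by rw [inv_mul_cancel₀ ht0]; norm_num
      have h7 : γ 1 / 2 * t ≤ γ t := by
        have h8 : γ 1 * t ≤ 2 * γ t := by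
          calc γ 1 * t ≤ ((n + 1) * γ t) * t := by gcongr
            _ = ((n + 1) * t) * γ t := by ring
            _ ≤ 2 * γ t := by gcongr
        calc γ 1 / 2 * t = (γ 1 * t) / 2 := by ring
          _ ≤ (2 * γ t) / 2 := by gcongr
          _ = γ t := by field_simp
      rw [min_eq_left ht.le]
      calc min (min ε₀ (γ 1 / 2)) 1 * t ≤ γ 1 / 2 * t := by gcongr
        _ ≤ γ t := h7
  · calc min (min ε₀ (γ 1 / 2)) 1 * min t 1 ≤ ε₀ * 1 := by gcongr
      _ ≤ θ t := by rw [mul_one]; exact hgt.le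

/-- Every weakly contractive map with closed bounded values on a complete metric space has a
fixed point. -/
theorem result {X : Type*} [MetricSpace X] [CompleteSpace X] [Nonempty X] (θ : ℝ≥0 → ℝ≥0)
    (hθ : InA θ) (T : X → Set X) (hT : IsCB T) (hw : WeaklyContractive θ T) : ∃ x, x ∈ T x := by
  by_contra hno
  push Not at hno
  obtain ⟨c, hc0, hc1, hc⟩ := lower hθ
  have hfin : ∀ x y, hausdorffEDist (T x) (T y) ≠ ⊤ := fun x y =>
    hausdorffEDist_ne_top_of_nonempty_of_bounded (hT x).1 (hT y).1 (hT x).2.2 (hT y).2.2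
  -- one step
  have step : ∀ x y : X, y ∈ T x → ∃ z, z ∈ T y ∧
      dist y z ≤ dist x y - c / 2 * min (dist x y) 1 := by
    intro x y hy
    have hxy : x ≠ y := fun h => hno x (by rw [← h] at hy; exact hy)
    have hd : 0 < dist x y := dist_pos.2 hxy
    have h1 := hw x y
    have h2 := hc (nndist x y)
    have h3 : (c : ℝ) * min (dist x y) 1 ≤ θ (nndist x y) := by
      have := NNReal.coe_le_coe.2 h2
      simpa using this
    have h4 : 0 < (c : ℝ) * min (dist x y) 1 := by positivity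
    obtain ⟨z, hz, hyz⟩ := exists_dist_lt_of_hausdorffDist_lt (r := dist x y - c / 2 * min (dist x y) 1)
      hy (by linarith) (hfin x y)
    exact ⟨z, hz, hyz.le⟩
  obtain ⟨x0⟩ := ‹Nonempty X›
  obtain ⟨x1, hx1⟩ := (hT x0).1
  -- the orbit
  let S := {p : X × X // p.2 ∈ T p.1}
  let nxt : S → S := fun p => ⟨(p.1.2, (step p.1.1 p.1.2 p.2).choose),
    (step p.1.1 p.1.2 p.2).choose_spec.1⟩
  let orb : ℕ → S := fun n => nxt^[n] ⟨(x0, x1), hx1⟩
  have horb : ∀ n, orb (n + 1) = nxt (orb n) := fun n => Function.iterate_succ_apply' _ _ _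
  let x : ℕ → X := fun n => (orb n).1.1
  have hx : ∀ n, x (n + 1) = (orb n).1.2 := by
    intro n
    change (orb (n + 1)).1.1 = _
    rw [horb]
  have hmem : ∀ n, x (n + 1) ∈ T (x n) := by
    intro n
    rw [hx]
    exact (orb n).2
  have hdec : ∀ n, dist (x (n + 1)) (x (n + 2)) ≤
      dist (x n) (x (n + 1)) - c / 2 * min (dist (x n) (x (n + 1))) 1 := by
    intro n
    have h1 := (step (orb n).1.1 (orb n).1.2 (orb n).2).choose_spec.2
    have h2 : x (n + 2) = (step (orb n).1.1 (orb n).1.2 (orb n).2).choose := by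
      rw [hx, horb]
    rw [h2, hx]
    exact h1
  set D : ℝ := max (dist (x 0) (x 1)) 1 with hD
  have hD1 : 1 ≤ D := le_max_right _ _
  have hD0 : 0 < D := by linarith
  set q : ℝ := 1 - c / (2 * D) with hq
  have hcR : (0 : ℝ) < c := hc0
  have hcR1 : (c : ℝ) ≤ 1 := hc1
  have hq0 : 0 ≤ q := by
    rw [hq, sub_nonneg, div_le_one (by positivity)]
    linarith
  have hq1 : q < 1 := by
    rw [hq]
    have : 0 < (c : ℝ) / (2 * D) := by positivity
    linarith
  have hgeo : ∀ n, dist (x n) (x (n + 1)) ≤ dist (x 0) (x 1) * q ^ n ∧ dist (x n) (x (n + 1)) ≤ D := by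
    intro n
    induction n with
    | zero => simp [hD]
    | succ n ih =>
      obtain ⟨ih1, ih2⟩ := ih
      have h1 := hdec n
      set d := dist (x n) (x (n + 1)) with hd
      have hd0 : 0 ≤ d := dist_nonneg
      have h2 : d / D ≤ min d 1 := by
        apply le_min
        · exact div_le_self hd0 hD1
        · rw [div_le_one hD0]; exact ih2
      have h3 : d - c / 2 * min d 1 ≤ q * d := by
        have h4 : (c : ℝ) / 2 * (d / D) ≤ c / 2 * min d 1 := by gcongr
        have h5 : q * d = d - c / 2 * (d / D) := by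
          rw [hq]
          field_simp
        rw [h5]
        linarith
      have h6 : q * d ≤ d := by nlinarith
      refine ⟨?_, by linarith⟩
      calc dist (x (n + 1)) (x (n + 2)) ≤ q * d := by linarith
        _ ≤ q * (dist (x 0) (x 1) * q ^ n) := by gcongr
        _ = _ := by ring
  have hcau : CauchySeq x := cauchySeq_of_le_geometric q (dist (x 0) (x 1)) hq1 fun n => (hgeo n).1
  obtain ⟨y, hy⟩ := cauchySeq_tendsto_of_complete hcau
  apply hno y
  rw [(hT y).2.1.mem_iff_infDist_zero (hT y).1]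
  apply le_antisymm _ infDist_nonneg
  have hlim : Tendsto (fun n => dist y (x (n + 1)) + dist (x n) y) atTop (𝓝 0) := by
    have h1 : Tendsto (fun n => dist y (x (n + 1))) atTop (𝓝 0) := by
      have := (tendsto_const_nhds (x := y)).dist (hy.comp (tendsto_add_atTop_nat 1))
      simpa using this
    have h2 : Tendsto (fun n => dist (x n) y) atTop (𝓝 0) := tendsto_iff_dist_tendsto_zero.1 hy
    simpa using h1.add h2
  apply ge_of_tendsto' hlim
  intro n
  have h1 : infDist (x (n + 1)) (T y) ≤ hausdorffDist (T (x n)) (T y) :=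
    infDist_le_hausdorffDist_of_mem (hmem n) (hfin _ _)
  have h2 := hw (x n) y
  have h3 : (0 : ℝ) ≤ θ (nndist (x n) y) := NNReal.coe_nonneg _
  have h4 : infDist y (T y) ≤ infDist (x (n + 1)) (T y) + dist y (x (n + 1)) := infDist_le_infDist_add_dist
  linarith

end Pool.Agent.Results.MP_e93574_an.FixedPoint
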